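import Pool.Agent.U29.DZ.Stm

set_option autoImplicit false

/-! Project DZ, package SUP -/

namespace Pool.Agent.U694.DZ

open Finset MeasureTheory Filter Pool.Agent.U762.RP Pool.Agent.U29.DZ

theorem t_SUP : S_SUP := by
  intro μ _ s h
  rw [ae_all_iff]
  intro x
  have hmp := measurePreserving_eval_infinitePi μ x
  have h1 : ∀ᵐ u ∂(μ x), u ∉ s x := by
    rw [ae_iff]
    simpa using h x
  exact hmp.quasiMeasurePreserving.ae h1

end Pool.Agent.U694.DZ
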